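import Pool.Agent.Helper50.GX.Defs

/-! # HAAR: the bipartite graph `(g,0) ~ (g t(x), 1)` -/

set_option autoImplicit false

namespace Pool.Agent.Helper50.GX

/-- The bipartite graph. -/
def haarG {Q A : Type} [Group Q] (t : A → Q) : SimpleGraph (Q × Bool) where
  Adj p q := ∃ x, (p.2 = false ∧ q.2 = true ∧ q.1 = p.1 * t x) ∨
    (p.2 = true ∧ q.2 = false ∧ p.1 = q.1 * t x)
  symm := by
    constructor
    rintro p q ⟨x, h | h⟩
    · exact ⟨x, Or.inr ⟨h.2.1, h.1, h.2.2⟩⟩
    · exact ⟨x, Or.inl ⟨h.2.1, h.1, h.2.2⟩⟩
  loopless := by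
    constructor
    rintro p ⟨x, h | h⟩
    · have h1 := h.1
      have h2 := h.2.1
      rw [h1] at h2
      exact absurd h2 (by decide)
    · have h1 := h.1
      have h2 := h.2.1
      rw [h1] at h2
      exact absurd h2 (by decide)

theorem haar_adj {Q A : Type} [Group Q] (t : A → Q) (p q : Q × Bool) :
    (haarG t).Adj p q ↔ ∃ x, (p.2 = false ∧ q.2 = true ∧ q.1 = p.1 * t x) ∨
    (p.2 = true ∧ q.2 = false ∧ p.1 = q.1 * t x) := Iff.rfl

theorem haar_side {Q A : Type} [Group Q] (t : A → Q) (p q : Q × Bool)
    (h : (haarG t).Adj p q) : q.2 = !p.2 := by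
  obtain ⟨x, h | h⟩ := h
  · rw [h.1, h.2.1]; rfl
  · rw [h.1, h.2.1]; rfl

theorem haar_key {Q A : Type} [Group Q] (t : A → Q) (k : ℕ)
    (hred : ∀ (a b : ℕ → A) (j : ℕ), 1 ≤ j → j ≤ k → Red a b j → gprod t a b j ≠ 1)
    (u : Q × Bool) (w : (haarG t).Walk u u) (hw : w.IsCycle) (hu : u.2 = false) :
    2 * k + 2 ≤ w.length := by
  by_contra hlt
  have h3 := hw.three_le_length
  have hadj : ∀ i, i < w.length → (haarG t).Adj (w.getVert i) (w.getVert (i + 1)) := by
    intro i hi
    exact w.adj_getVert_succ hi
  have hside : ∀ i, i ≤ w.length → (w.getVert i).2 = Nat.bodd i := by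
    intro i
    induction i with
    | zero =>
      intro _
      rw [w.getVert_zero, hu]
      rfl
    | succ i ih =>
      intro hi
      rw [haar_side t _ _ (hadj i (by omega)), ih (by omega), Nat.bodd_succ]
  have hn := hside w.length le_rfl
  rw [w.getVert_length, hu] at hn
  have hev : ∃ j, w.length = 2 * j := by
    refine ⟨w.length.div2, ?_⟩
    have h := Nat.bodd_add_div2 w.length
    rw [← hn] at h
    simpa using h.symm
  obtain ⟨j, hj⟩ := hev
  have hnb : ∀ i, i + 2 ≤ w.length → w.getVert i ≠ w.getVert (i + 2) := by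
    intro i hi heq
    by_cases hi0 : 1 ≤ i
    · have := hw.getVert_injOn (show i ∈ {i | 1 ≤ i ∧ i ≤ w.length} from ⟨hi0, by omega⟩)
        (show i + 2 ∈ {i | 1 ≤ i ∧ i ≤ w.length} from ⟨by omega, hi⟩) heq
      omega
    · have := hw.getVert_injOn' (show i ∈ {i | i ≤ w.length - 1} from
        (show i ≤ w.length - 1 by omega))
        (show i + 2 ∈ {i | i ≤ w.length - 1} from (show i + 2 ≤ w.length - 1 by omega)) heq
      omega
  have ha : ∀ i, i < j → ∃ x, (w.getVert (2 * i + 1)).1 = (w.getVert (2 * i)).1 * t x := by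
    intro i hi
    obtain ⟨x, h | h⟩ := hadj (2 * i) (by omega)
    · exact ⟨x, h.2.2⟩
    · have h1 := h.1
      rw [hside _ (by omega)] at h1
      simp at h1
  have hb : ∀ i, i < j → ∃ x, (w.getVert (2 * i + 1)).1 = (w.getVert (2 * i + 2)).1 * t x := by
    intro i hi
    obtain ⟨x, h | h⟩ := hadj (2 * i + 1) (by omega)
    · have h1 := h.1
      rw [hside _ (by omega)] at h1
      simp at h1
    · exact ⟨x, h.2.2⟩
  have hj1 : 1 ≤ j := by omega
  obtain ⟨x0, _⟩ := ha 0 (by omega)
  have : Nonempty A := ⟨x0⟩
  choose! a ha using ha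
  choose! b hb using hb
  have hg : ∀ i, i ≤ j → (w.getVert 0).1 * gprod t a b i = (w.getVert (2 * i)).1 := by
    intro i
    induction i with
    | zero =>
      intro _
      simp [gprod]
    | succ i ih =>
      intro hi
      rw [gprod, ← mul_assoc, ih (by omega), ← mul_assoc, ← ha i (by omega), hb i (by omega),
        mul_inv_cancel_right]
      rfl
  have h1 : gprod t a b j = 1 := by
    have h := hg j le_rfl
    rw [← hj, w.getVert_length, w.getVert_zero] at h
    exact mul_eq_left.mp h
  refine hred a b j hj1 (by omega) ⟨?_, ?_⟩ h1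
  · intro i hi hab
    apply hnb (2 * i) (by omega)
    have e1 : (w.getVert (2 * i)).1 = (w.getVert (2 * i + 2)).1 := by
      have h4 := ha i hi
      rw [hb i hi, hab] at h4
      exact (mul_right_cancel h4).symm
    have e2 : (w.getVert (2 * i)).2 = (w.getVert (2 * i + 2)).2 := by
      rw [hside _ (by omega), hside _ (by omega)]
      simp
    exact Prod.ext e1 e2
  · intro i hi hab
    apply hnb (2 * i + 1) (by omega)
    have e1 : (w.getVert (2 * i + 1)).1 = (w.getVert (2 * i + 1 + 2)).1 := by
      have h4 := ha (i + 1) hi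
      rw [← hab] at h4
      rw [hb i (by omega)]
      exact h4.symm
    have e2 : (w.getVert (2 * i + 1)).2 = (w.getVert (2 * i + 1 + 2)).2 := by
      rw [hside _ (by omega), hside _ (by omega)]
      simp
    exact Prod.ext e1 e2

theorem st_HAAR : ST_HAAR := by
  intro Q A _ _ _ t k hk hred
  have hinj : Function.Injective t := by
    intro x y hxy
    by_contra hne
    refine hred (fun _ => x) (fun _ => y) 1 le_rfl hk ⟨fun i _ => hne, fun i hi => by omega⟩ ?_
    simp [gprod, hxy]
  refine ⟨Q × Bool, inferInstance, ⟨(1, false)⟩, haarG t, ?_, ?_, ?_⟩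
  · rw [Nat.card_prod, Nat.card_eq_fintype_card (α := Bool), Fintype.card_bool, mul_comm]
  · rintro ⟨g, s⟩
    cases s with
    | false =>
      have hset : (haarG t).neighborSet (g, false) = Set.range fun x => (g * t x, true) := by
        ext ⟨h, s⟩
        rw [SimpleGraph.mem_neighborSet, haar_adj, Set.mem_range]
        constructor
        · rintro ⟨x, h1 | h1⟩
          · exact ⟨x, Prod.ext h1.2.2.symm h1.2.1.symm⟩
          · exact absurd h1.1 (by simp)
        · rintro ⟨x, hx⟩
          have e1 := congrArg Prod.fst hx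
          have e2 := congrArg Prod.snd hx
          exact ⟨x, Or.inl ⟨rfl, e2.symm, e1.symm⟩⟩
      rw [hset, ← Set.image_univ, Set.ncard_image_of_injective, Set.ncard_univ]
      intro x y hxy
      exact hinj (mul_left_cancel (congrArg Prod.fst hxy))
    | true =>
      have hset : (haarG t).neighborSet (g, true) = Set.range fun x => (g * (t x)⁻¹, false) := by
        ext ⟨h, s⟩
        rw [SimpleGraph.mem_neighborSet, haar_adj, Set.mem_range]
        constructor
        · rintro ⟨x, h1 | h1⟩
          · exact absurd h1.1 (by simp)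
          · refine ⟨x, Prod.ext ?_ h1.2.1.symm⟩
            have h2 : g = h * t x := h1.2.2
            rw [h2, mul_inv_cancel_right]
        · rintro ⟨x, hx⟩
          have e1 : g * (t x)⁻¹ = h := congrArg Prod.fst hx
          have e2 := congrArg Prod.snd hx
          refine ⟨x, Or.inr ⟨rfl, e2.symm, ?_⟩⟩
          change g = h * t x
          rw [← e1, inv_mul_cancel_right]
      rw [hset, ← Set.image_univ, Set.ncard_image_of_injective, Set.ncard_univ]
      intro x y hxy
      exact hinj (inv_injective (mul_left_cancel (congrArg Prod.fst hxy)))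
  · intro u w hw
    cases hu : u.2 with
    | false => exact haar_key t k hred u w hw hu
    | true =>
      have h3 := hw.three_le_length
      have hmem : w.getVert 1 ∈ w.support := w.getVert_mem_support 1
      have hadj := w.adj_getVert_succ (show 0 < w.length by omega)
      have hs := haar_side t _ _ hadj
      rw [w.getVert_zero, hu] at hs
      classical
      have := haar_key t k hred (w.getVert 1) (w.rotate (w.getVert 1) hmem)
        (hw.rotate hmem) hs
      rwa [w.length_rotate] at this

end Pool.Agent.Helper50.GX
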